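import Pool.Agent.H230R3.MonoEx

/-!
# Convex sets which are domains or ranges of maximally monotone operators

A nonempty convex set `C` of `ℝⁿ` is the domain (equivalently the range) of the subdifferential of
a proper lower semicontinuous convex function, equivalently of a maximally monotone operator, if
and only if it is a countable union of closed sets.

Construction: `C` is the union of an increasing sequence of nonempty compact convex sets `F k`; the
function `g = ∑ 3 ^ k * dist(·, F k)` has a subgradient exactly at the points of `C`. At a point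
`x` of `F m` the terms with `k ≥ m` vanish and the others are Lipschitz convex functions. At a point
`x` outside `C` compare `x` with its nearest point `p` in `F m`: the drop `g x - g p` is at least
`(3 ^ m - ∑ k < m, 3 ^ k) * ‖x - p‖ ≥ m * ‖x - p‖`, so that a subgradient at `x` would have norm
at least `m` for every `m`.
-/

set_option autoImplicit false
set_option linter.unusedSectionVars false
open Set Metric Filter Topology

namespace Pool.Agent.Results.MP_597c46_an.SigmaCharacterization

open Pool.Agent.H230R3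

/-- `C` is an `F_σ` set: a countable union of closed sets. -/
def IsFSigma {X : Type*} [TopologicalSpace X] (C : Set X) : Prop :=
  ∃ F : ℕ → Set X, (∀ k, IsClosed (F k)) ∧ ⋃ k, F k = C

section Construct

variable {H : Type*} [NormedAddCommGroup H] [InnerProductSpace ℝ H] [ProperSpace H]

/-- the partial sums of the function -/
noncomputable def P (F : ℕ → Set H) (n : ℕ) (x : H) : ℝ :=
  ∑ k ∈ Finset.range n, (3 : ℝ) ^ k * infDist x (F k)

/-- the function `∑ 3 ^ k * dist(·, F k)` -/
noncomputable def g (F : ℕ → Set H) (x : H) : EReal := ⨆ n, ((P F n x : ℝ) : EReal)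

/-- an increasing sequence of nonempty closed convex sets -/
structure Good (F : ℕ → Set H) : Prop where
  closed : ∀ k, IsClosed (F k)
  ne : ∀ k, (F k).Nonempty
  cvx : ∀ k, Convex ℝ (F k)
  mono : Monotone F

theorem exists_proj {F : ℕ → Set H} (hF : Good F) (k : ℕ) (x : H) :
    ∃ p ∈ F k, infDist x (F k) = ‖x - p‖ ∧ ∀ w ∈ F k, inner ℝ (x - p) (w - p) ≤ 0 := by
  obtain ⟨p, hp, hd⟩ := (hF.closed k).exists_infDist_eq_dist (hF.ne k) x
  refine ⟨p, hp, by rw [hd, dist_eq_norm], ?_⟩
  rw [← norm_eq_iInf_iff_real_inner_le_zero (hF.cvx k) hp]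
  rw [← dist_eq_norm, ← hd, Metric.infDist_eq_iInf]
  simp only [dist_eq_norm]

theorem exists_subgrad {F : ℕ → Set H} (hF : Good F) (k : ℕ) (x : H) :
    ∃ v : H, ∀ y, infDist x (F k) + inner ℝ v (y - x) ≤ infDist y (F k) := by
  obtain ⟨p, hp, hd, hv⟩ := exists_proj hF k x
  rcases eq_or_ne x p with rfl | hne
  · refine ⟨0, fun y => ?_⟩
    rw [hd]
    simp only [sub_self, norm_zero, inner_zero_left, add_zero]
    exact infDist_nonneg
  · have hpos : 0 < ‖x - p‖ := norm_pos_iff.2 (sub_ne_zero.2 hne)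
    refine ⟨(‖x - p‖)⁻¹ • (x - p), fun y => ?_⟩
    obtain ⟨q, hq, hdq, -⟩ := exists_proj hF k y
    rw [hd, hdq]
    have h1 : inner ℝ ((‖x - p‖)⁻¹ • (x - p)) (y - q) ≤ ‖y - q‖ := by
      refine (real_inner_le_norm _ _).trans ?_
      rw [norm_smul, norm_inv, norm_norm, inv_mul_cancel₀ hpos.ne', one_mul]
    have h2 : inner ℝ ((‖x - p‖)⁻¹ • (x - p)) (q - p) ≤ 0 := by
      rw [inner_smul_left]
      have := hv q hq
      have h3 : 0 ≤ (‖x - p‖)⁻¹ := by positivity
      simp only [conj_trivial]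
      exact mul_nonpos_of_nonneg_of_nonpos h3 this
    have h4 : inner ℝ ((‖x - p‖)⁻¹ • (x - p)) (x - p) = ‖x - p‖ := by
      rw [inner_smul_left, real_inner_self_eq_norm_sq]
      simp only [conj_trivial]
      field_simp
    have h5 : y - x = (y - q) + (q - p) - (x - p) := by abel
    rw [h5, inner_sub_right, inner_add_right, h4]
    linarith

theorem P_subgrad {F : ℕ → Set H} (hF : Good F) (n : ℕ) (x : H) :
    ∃ v : H, ∀ y, P F n x + inner ℝ v (y - x) ≤ P F n y := by
  induction n with
  | zero => exact ⟨0, fun y => by simp [P]⟩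
  | succ n ih =>
    obtain ⟨v, hv⟩ := ih
    obtain ⟨w, hw⟩ := exists_subgrad hF n x
    refine ⟨v + (3 : ℝ) ^ n • w, fun y => ?_⟩
    have h1 := hv y
    have h2 := hw y
    have h3 : (0 : ℝ) ≤ 3 ^ n := by positivity
    have h4 := mul_le_mul_of_nonneg_left h2 h3
    simp only [P, Finset.sum_range_succ] at h1 ⊢
    rw [inner_add_left, inner_smul_left]
    simp only [conj_trivial]
    linarith

theorem P_nonneg (F : ℕ → Set H) (n : ℕ) (x : H) : 0 ≤ P F n x :=
  Finset.sum_nonneg fun k _ => mul_nonneg (by positivity) infDist_nonneg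

theorem P_le_g (F : ℕ → Set H) (n : ℕ) (x : H) : ((P F n x : ℝ) : EReal) ≤ g F x :=
  le_iSup (fun n => ((P F n x : ℝ) : EReal)) n

theorem P_le_of_mem {F : ℕ → Set H} (hF : Good F) {m : ℕ} {x : H} (hx : x ∈ F m) (n : ℕ) :
    P F n x ≤ P F m x := by
  rcases le_total n m with h | h
  · exact Finset.sum_le_sum_of_subset_of_nonneg (Finset.range_mono h)
      fun k _ _ => mul_nonneg (by positivity) infDist_nonneg
  · refine le_of_eq ?_
    unfold P
    symm
    refine Finset.sum_subset (Finset.range_mono h) fun k _ hk => ?_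
    have hk' : m ≤ k := by simpa using hk
    rw [infDist_zero_of_mem (hF.mono hk' hx), mul_zero]

theorem g_eq_of_mem {F : ℕ → Set H} (hF : Good F) {m : ℕ} {x : H} (hx : x ∈ F m) :
    g F x = ((P F m x : ℝ) : EReal) := by
  refine le_antisymm (iSup_le fun n => ?_) (P_le_g F m x)
  exact_mod_cast P_le_of_mem hF hx n

theorem g_nonneg (F : ℕ → Set H) (x : H) : 0 ≤ g F x := by
  refine le_trans ?_ (P_le_g F 0 x)
  simp [P]

theorem P_continuous (F : ℕ → Set H) (n : ℕ) : Continuous (P F n) := by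
  unfold P
  refine continuous_finsetSum _ fun k _ => ?_
  exact continuous_const.mul (continuous_infDist_pt _)

theorem g_lsc (F : ℕ → Set H) : LowerSemicontinuous (g F) := by
  unfold g
  refine lowerSemicontinuous_iSup fun n => ?_
  exact (continuous_coe_real_ereal.comp (P_continuous F n)).lowerSemicontinuous

theorem infDist_convex {F : ℕ → Set H} (hF : Good F) (k : ℕ) (x y : H) {a b : ℝ} (ha : 0 < a)
    (hb : 0 < b) (hab : a + b = 1) :
    infDist (a • x + b • y) (F k) ≤ a * infDist x (F k) + b * infDist y (F k) := by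
  obtain ⟨p, hp, hd, -⟩ := exists_proj hF k x
  obtain ⟨q, hq, hdq, -⟩ := exists_proj hF k y
  rw [hd, hdq]
  have hm : a • p + b • q ∈ F k := hF.cvx k hp hq ha.le hb.le hab
  refine (infDist_le_dist_of_mem hm).trans ?_
  rw [dist_eq_norm]
  have : a • x + b • y - (a • p + b • q) = a • (x - p) + b • (y - q) := by
    rw [smul_sub, smul_sub]; abel
  rw [this]
  refine (norm_add_le _ _).trans ?_
  rw [norm_smul, norm_smul, Real.norm_of_nonneg ha.le, Real.norm_of_nonneg hb.le]

theorem P_convex {F : ℕ → Set H} (hF : Good F) (n : ℕ) (x y : H) {a b : ℝ} (ha : 0 < a)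
    (hb : 0 < b) (hab : a + b = 1) :
    P F n (a • x + b • y) ≤ a * P F n x + b * P F n y := by
  unfold P
  rw [Finset.mul_sum, Finset.mul_sum, ← Finset.sum_add_distrib]
  refine Finset.sum_le_sum fun k _ => ?_
  have h1 := infDist_convex hF k x y ha hb hab
  have h3 : (0 : ℝ) ≤ 3 ^ k := by positivity
  have := mul_le_mul_of_nonneg_left h1 h3
  linarith

theorem ereal_mul_le {a : ℝ} (ha : 0 < a) {s t : EReal} (h : s ≤ t) :
    (a : EReal) * s ≤ (a : EReal) * t :=
  mul_le_mul_of_nonneg_left h (by exact_mod_cast ha.le)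

theorem g_properLscConvex {F : ℕ → Set H} (hF : Good F) : IsProperLscConvex (g F) where
  ne_bot := fun x h => by
    have := g_nonneg F x
    rw [h] at this
    exact absurd this (by simp)
  proper := by
    obtain ⟨x, hx⟩ := hF.ne 0
    exact ⟨x, by rw [g_eq_of_mem hF hx]; exact EReal.coe_ne_top _⟩
  lsc := g_lsc F
  convex := by
    intro x y a b ha hb hab
    refine iSup_le fun n => ?_
    have h1 := P_convex hF n x y ha hb hab
    have h2 : ((P F n (a • x + b • y) : ℝ) : EReal) ≤
        (a : EReal) * ((P F n x : ℝ) : EReal) + (b : EReal) * ((P F n y : ℝ) : EReal) := by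
      exact_mod_cast h1
    exact h2.trans (add_le_add (ereal_mul_le ha (P_le_g F n x)) (ereal_mul_le hb (P_le_g F n y)))

theorem geom (m : ℕ) : (∑ k ∈ Finset.range m, (3 : ℝ) ^ k) + m ≤ 3 ^ m := by
  induction m with
  | zero => simp
  | succ m ih =>
    rw [Finset.sum_range_succ, pow_succ]
    push_cast
    have h1 : (1 : ℝ) ≤ 3 ^ m := one_le_pow₀ (by norm_num)
    linarith

/-- there are no subgradients outside the union -/
theorem no_subgrad {F : ℕ → Set H} (hF : Good F) {x v : H} (hx : x ∉ ⋃ k, F k) :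
    v ∉ subdiff (g F) x := by
  intro hv
  obtain ⟨x0, hx0⟩ := hF.ne 0
  have hfin : g F x ≠ ⊤ := by
    intro htop
    have h1 := hv x0
    rw [htop, g_eq_of_mem hF hx0, EReal.top_add_coe] at h1
    exact EReal.coe_ne_top _ (top_le_iff.1 h1)
  have hbot : g F x ≠ ⊥ := (g_properLscConvex hF).ne_bot x
  obtain ⟨G, hG⟩ : ∃ G : ℝ, g F x = G := ⟨(g F x).toReal, (EReal.coe_toReal hfin hbot).symm⟩
  have hPG : ∀ n, P F n x ≤ G := fun n => by
    have := P_le_g F n x
    rw [hG] at this
    exact_mod_cast this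
  obtain ⟨m, hm⟩ := exists_nat_gt ‖v‖
  obtain ⟨p, hp, hd, -⟩ := exists_proj hF m x
  have hne : x ≠ p := by
    rintro rfl
    exact hx (mem_iUnion.2 ⟨m, hp⟩)
  have hpos : 0 < ‖x - p‖ := norm_pos_iff.2 (sub_ne_zero.2 hne)
  have h1 := hv p
  rw [hG, g_eq_of_mem hF hp] at h1
  have h2 : G + inner ℝ v (p - x) ≤ P F m p := by exact_mod_cast h1
  have h3 : P F m p ≤ P F m x + (∑ k ∈ Finset.range m, (3 : ℝ) ^ k) * ‖x - p‖ := by
    unfold P
    rw [Finset.sum_mul, ← Finset.sum_add_distrib]
    refine Finset.sum_le_sum fun k _ => ?_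
    have h4 : infDist p (F k) ≤ infDist x (F k) + ‖x - p‖ := by
      rw [← dist_eq_norm, dist_comm]
      exact infDist_le_infDist_add_dist
    have h5 : (0 : ℝ) ≤ 3 ^ k := by positivity
    have := mul_le_mul_of_nonneg_left h4 h5
    linarith
  have h4 : P F m x + 3 ^ m * ‖x - p‖ ≤ G := by
    have := hPG (m + 1)
    simp only [P, Finset.sum_range_succ] at this ⊢
    rw [hd] at this
    exact this
  have h5 : -(‖v‖ * ‖x - p‖) ≤ inner ℝ v (p - x) := by
    have := abs_real_inner_le_norm v (p - x)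
    rw [norm_sub_rev p x] at this
    exact (abs_le.1 this).1
  have h6 := geom m
  have h7 : (∑ k ∈ Finset.range m, (3 : ℝ) ^ k) * ‖x - p‖ + m * ‖x - p‖ ≤ 3 ^ m * ‖x - p‖ := by
    have := mul_le_mul_of_nonneg_right h6 hpos.le
    linarith
  have h8 : ‖v‖ * ‖x - p‖ < m * ‖x - p‖ := mul_lt_mul_of_pos_right hm hpos
  linarith

theorem mem_subdiff_of_mem {F : ℕ → Set H} (hF : Good F) {m : ℕ} {x : H} (hx : x ∈ F m) :
    ∃ v, v ∈ subdiff (g F) x := by
  obtain ⟨v, hv⟩ := P_subgrad hF m x
  refine ⟨v, fun y => ?_⟩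
  rw [g_eq_of_mem hF hx]
  refine le_trans ?_ (P_le_g F m y)
  exact_mod_cast hv y

theorem dom_g {F : ℕ → Set H} (hF : Good F) : domOp (subdiff (g F)) = ⋃ k, F k := by
  ext x
  constructor
  · rintro ⟨v, hv⟩
    by_contra hx
    exact no_subgrad hF hx hv
  · intro hx
    obtain ⟨m, hm⟩ := mem_iUnion.1 hx
    exact mem_subdiff_of_mem hF hm

/-- the conjugate function -/
noncomputable def gs (F : ℕ → Set H) (u : H) : EReal :=
  ⨆ p : {p : H × ℝ // g F p.1 ≤ (p.2 : EReal)}, ((inner ℝ u p.1.1 - p.1.2 : ℝ) : EReal)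

theorem le_gs (F : ℕ → Set H) (u z : H) (r : ℝ) (h : g F z ≤ (r : EReal)) :
    ((inner ℝ u z - r : ℝ) : EReal) ≤ gs F u :=
  le_iSup (fun p : {p : H × ℝ // g F p.1 ≤ (p.2 : EReal)} =>
    ((inner ℝ u p.1.1 - p.1.2 : ℝ) : EReal)) ⟨(z, r), h⟩

theorem gs_zero (F : ℕ → Set H) : gs F 0 ≤ 0 := by
  refine iSup_le fun p => ?_
  have h1 : (0 : EReal) ≤ (p.1.2 : EReal) := (g_nonneg F p.1.1).trans p.2
  have h2 : (0 : ℝ) ≤ p.1.2 := by exact_mod_cast h1
  have h3 : (inner ℝ (0 : H) p.1.1 - p.1.2 : ℝ) ≤ 0 := by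
    rw [inner_zero_left]; linarith
  exact_mod_cast h3

theorem gs_ne_bot {F : ℕ → Set H} (hF : Good F) (u : H) : gs F u ≠ ⊥ := by
  obtain ⟨x0, hx0⟩ := hF.ne 0
  have h := le_gs F u x0 (P F 0 x0) (g_eq_of_mem hF hx0).le
  intro hb
  rw [hb] at h
  exact EReal.coe_ne_bot _ (le_bot_iff.1 h)

theorem gs_properLscConvex {F : ℕ → Set H} (hF : Good F) : IsProperLscConvex (gs F) where
  ne_bot := gs_ne_bot hF
  proper := ⟨0, fun h => by
    have := gs_zero F
    rw [h] at this
    exact absurd this (by simp)⟩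
  lsc := by
    unfold gs
    refine lowerSemicontinuous_iSup fun p => ?_
    refine (continuous_coe_real_ereal.comp ?_).lowerSemicontinuous
    fun_prop
  convex := by
    intro x y a b ha hb hab
    refine iSup_le fun p => ?_
    have h1 : (inner ℝ (a • x + b • y) p.1.1 - p.1.2 : ℝ) =
        a * (inner ℝ x p.1.1 - p.1.2) + b * (inner ℝ y p.1.1 - p.1.2) := by
      rw [inner_add_left, inner_smul_left, inner_smul_left]
      simp only [conj_trivial]
      have : b = 1 - a := by linarith
      rw [this]; ring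
    rw [h1]
    have h2 : ((a * (inner ℝ x p.1.1 - p.1.2) + b * (inner ℝ y p.1.1 - p.1.2) : ℝ) : EReal) =
        (a : EReal) * ((inner ℝ x p.1.1 - p.1.2 : ℝ) : EReal) +
          (b : EReal) * ((inner ℝ y p.1.1 - p.1.2 : ℝ) : EReal) := by
      push_cast
      rfl
    rw [h2]
    exact add_le_add (ereal_mul_le ha (le_gs F x _ _ p.2)) (ereal_mul_le hb (le_gs F y _ _ p.2))

/-- subgradients of the conjugate function -/
theorem mem_of_mem_subdiff_gs {F : ℕ → Set H} (hF : Good F) {u x : H}
    (h : x ∈ subdiff (gs F) u) : u ∈ subdiff (g F) x := by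
  have hfin : gs F u ≠ ⊤ := by
    intro htop
    have h1 := h 0
    rw [htop, EReal.top_add_coe] at h1
    have h2 := (top_le_iff.1 h1).symm.le.trans (gs_zero F)
    exact absurd h2 (by simp)
  obtain ⟨c, hc⟩ : ∃ c : ℝ, gs F u = c :=
    ⟨(gs F u).toReal, (EReal.coe_toReal hfin (gs_ne_bot hF u)).symm⟩
  have key : g F x ≤ ((inner ℝ u x - c : ℝ) : EReal) := by
    refine iSup_le fun n => ?_
    obtain ⟨v, hv⟩ := P_subgrad hF n x
    have h1 : gs F v ≤ ((inner ℝ v x - P F n x : ℝ) : EReal) := by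
      refine iSup_le fun p => ?_
      have h2 : ((P F n p.1.1 : ℝ) : EReal) ≤ (p.1.2 : EReal) := (P_le_g F n p.1.1).trans p.2
      have h3 : P F n p.1.1 ≤ p.1.2 := by exact_mod_cast h2
      have h4 := hv p.1.1
      rw [inner_sub_right] at h4
      have h5 : (inner ℝ v p.1.1 - p.1.2 : ℝ) ≤ inner ℝ v x - P F n x := by linarith
      exact_mod_cast h5
    have h6 := (h v).trans h1
    rw [hc] at h6
    have h7 : c + inner ℝ x (v - u) ≤ inner ℝ v x - P F n x := by exact_mod_cast h6
    rw [inner_sub_right, real_inner_comm v x, real_inner_comm u x] at h7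
    have h8 : P F n x ≤ inner ℝ u x - c := by linarith
    exact_mod_cast h8
  intro y
  rcases eq_or_ne (g F y) ⊤ with htop | htop
  · rw [htop]; exact le_top
  obtain ⟨t, ht⟩ : ∃ t : ℝ, g F y = t :=
    ⟨(g F y).toReal, (EReal.coe_toReal htop ((g_properLscConvex hF).ne_bot y)).symm⟩
  have h1 := le_gs F u y t ht.le
  rw [hc] at h1
  have h2 : inner ℝ u y - t ≤ c := by exact_mod_cast h1
  rw [ht]
  refine (add_le_add_left key _).trans ?_
  have h3 : inner ℝ u x - c + inner ℝ u (y - x) ≤ t := by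
    rw [inner_sub_right]; linarith
  exact_mod_cast h3

theorem mem_subdiff_gs {F : ℕ → Set H} (hF : Good F) {m : ℕ} {u x : H} (hx : x ∈ F m)
    (h : u ∈ subdiff (g F) x) : x ∈ subdiff (gs F) u := by
  intro w
  have hg := g_eq_of_mem hF hx
  have h1 : gs F u ≤ ((inner ℝ u x - P F m x : ℝ) : EReal) := by
    refine iSup_le fun p => ?_
    have h2 := (h p.1.1).trans p.2
    rw [hg] at h2
    have h3 : P F m x + inner ℝ u (p.1.1 - x) ≤ p.1.2 := by exact_mod_cast h2
    rw [inner_sub_right] at h3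
    have h5 : (inner ℝ u p.1.1 - p.1.2 : ℝ) ≤ inner ℝ u x - P F m x := by linarith
    exact_mod_cast h5
  refine (add_le_add_left h1 _).trans ?_
  refine le_trans ?_ (le_gs F w x (P F m x) hg.le)
  have h3 : inner ℝ u x - P F m x + inner ℝ x (w - u) ≤ inner ℝ w x - P F m x := by
    rw [inner_sub_right, real_inner_comm w x, real_inner_comm u x]; linarith
  exact_mod_cast h3

theorem ran_gs {F : ℕ → Set H} (hF : Good F) : ranOp (subdiff (gs F)) = ⋃ k, F k := by
  rw [← dom_g hF]
  ext x
  constructor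
  · rintro ⟨u, hu⟩
    exact ⟨u, mem_of_mem_subdiff_gs hF hu⟩
  · intro hx
    have hx' := hx
    rw [dom_g hF] at hx'
    obtain ⟨m, hm⟩ := mem_iUnion.1 hx'
    obtain ⟨u, hu⟩ := hx
    exact ⟨u, mem_subdiff_gs hF hm hu⟩

end Construct

/-- the inverse of a maximally monotone operator -/
theorem inv_maximal {H : Type*} [NormedAddCommGroup H] [InnerProductSpace ℝ H] {A : H → Set H}
    (hA : IsMaximallyMonotone A) : IsMaximallyMonotone (fun u => {x | u ∈ A x}) := by
  refine ⟨?_, ?_⟩
  · intro u v x y hx hy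
    have := hA.1 x y u v hx hy
    rwa [real_inner_comm] at this
  · intro B hB hAB u x hx
    have hB' : IsMonotoneOp (fun z => {w | z ∈ B w}) := by
      intro a b c d hc hd
      have := hB c d a b hc hd
      rwa [real_inner_comm] at this
    exact hA.2 (fun z => {w | z ∈ B w}) hB' (fun z w hw => hAB w hw) x hx

section Maximal

variable {H : Type*} [NormedAddCommGroup H] [InnerProductSpace ℝ H] [ProperSpace H]

theorem subdiff_ne_top {f : H → EReal} (hf : IsProperLscConvex f) {x u : H}
    (h : u ∈ subdiff f x) : f x ≠ ⊤ := by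
  obtain ⟨z, hz⟩ := hf.proper
  intro htop
  have h1 := h z
  rw [htop, EReal.top_add_coe] at h1
  exact hz (top_le_iff.1 h1)

theorem exists_real {f : H → EReal} (hf : IsProperLscConvex f) {x : H} (h : f x ≠ ⊤) :
    ∃ t : ℝ, f x = t := ⟨(f x).toReal, (EReal.coe_toReal h (hf.ne_bot x)).symm⟩

theorem subdiff_monotone {f : H → EReal} (hf : IsProperLscConvex f) :
    IsMonotoneOp (subdiff f) := by
  intro x y u v hu hv
  obtain ⟨s, hs⟩ := exists_real hf (subdiff_ne_top hf hu)
  obtain ⟨t, ht⟩ := exists_real hf (subdiff_ne_top hf hv)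
  have h1 := hu y
  have h2 := hv x
  rw [hs, ht] at h1 h2
  have h3 : s + inner ℝ u (y - x) ≤ t := by exact_mod_cast h1
  have h4 : t + inner ℝ v (x - y) ≤ s := by exact_mod_cast h2
  rw [inner_sub_left]
  rw [← neg_sub x y, inner_neg_right] at h3
  linarith

/-- the subdifferential of a nonnegative proper lower semicontinuous convex function is maximally
monotone -/
theorem subdiff_maximal {f : H → EReal} (hf : IsProperLscConvex f) (h0 : ∀ x, 0 ≤ f x) :
    IsMaximallyMonotone (subdiff f) := by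
  refine ⟨subdiff_monotone hf, ?_⟩
  intro B hB hfB x0 u0 hu0
  let q : H → ℝ := fun x => 1 / 2 * ‖x - x0‖ ^ 2 - inner ℝ u0 x
  have hq : Continuous q := by
    show Continuous fun x => 1 / 2 * ‖x - x0‖ ^ 2 - inner ℝ u0 x
    fun_prop
  obtain ⟨z0, hz0⟩ := hf.proper
  obtain ⟨r0, hr0⟩ := exists_real hf hz0
  let R : ℝ := ‖z0 - x0‖ + 2 * ‖u0‖ + 2 * |r0 + q z0 + ‖u0‖ * ‖x0‖| + 2
  have hR : ‖z0 - x0‖ ≤ R := by
    have := norm_nonneg u0
    have := abs_nonneg (r0 + q z0 + ‖u0‖ * ‖x0‖)
    show ‖z0 - x0‖ ≤ ‖z0 - x0‖ + 2 * ‖u0‖ + 2 * |r0 + q z0 + ‖u0‖ * ‖x0‖| + 2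
    linarith
  have hlsc : LowerSemicontinuous (fun x => f x + ((q x : ℝ) : EReal)) := by
    refine LowerSemicontinuous.add' hf.lsc
      (continuous_coe_real_ereal.comp hq).lowerSemicontinuous fun x => ?_
    exact EReal.continuousAt_add (Or.inr (EReal.coe_ne_bot _)) (Or.inr (EReal.coe_ne_top _))
  obtain ⟨m, hmem, hmin⟩ := LowerSemicontinuousOn.exists_isMinOn (s := closedBall x0 R)
    (f := fun x => f x + ((q x : ℝ) : EReal))
    ⟨x0, mem_closedBall_self ((norm_nonneg _).trans hR)⟩ (isCompact_closedBall x0 R)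
    (hlsc.lowerSemicontinuousOn _)
  have hz0m : z0 ∈ closedBall x0 R := by
    rw [mem_closedBall, dist_eq_norm]; exact hR
  have hm0 : f m + ((q m : ℝ) : EReal) ≤ ((r0 + q z0 : ℝ) : EReal) := by
    have := hmin hz0m
    simp only [mem_ofPred_eq] at this
    rw [hr0] at this
    exact_mod_cast this
  have hmtop : f m ≠ ⊤ := by
    intro h
    rw [h, EReal.top_add_coe] at hm0
    exact EReal.coe_ne_top _ (top_le_iff.1 hm0)
  obtain ⟨s, hs⟩ := exists_real hf hmtop
  have hm0' : s + q m ≤ r0 + q z0 := by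
    rw [hs] at hm0
    exact_mod_cast hm0
  -- the minimum is global
  have hglob : ∀ (y : H) (t : ℝ), f y ≤ (t : EReal) → s + q m ≤ t + q y := by
    intro y t ht
    by_cases hy : y ∈ closedBall x0 R
    · have h1 := hmin hy
      simp only [mem_ofPred_eq] at h1
      rw [hs] at h1
      have h2 : f y + ((q y : ℝ) : EReal) ≤ (t : EReal) + ((q y : ℝ) : EReal) :=
        add_le_add_left ht _
      have h3 := h1.trans h2
      exact_mod_cast h3
    · rw [mem_closedBall, dist_eq_norm, not_le] at hy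
      have ht0 : (0 : ℝ) ≤ t := by
        have := (h0 y).trans ht
        exact_mod_cast this
      have h1 : inner ℝ u0 y ≤ ‖u0‖ * (‖y - x0‖ + ‖x0‖) := by
        refine (real_inner_le_norm _ _).trans ?_
        refine mul_le_mul_of_nonneg_left ?_ (norm_nonneg _)
        have : y = (y - x0) + x0 := by abel
        calc ‖y‖ = ‖(y - x0) + x0‖ := by rw [← this]
          _ ≤ _ := norm_add_le _ _
      have h2 : r0 + q z0 ≤ q y := by
        have hb := le_abs_self (r0 + q z0 + ‖u0‖ * ‖x0‖)
        have hb0 := abs_nonneg (r0 + q z0 + ‖u0‖ * ‖x0‖)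
        set a := |r0 + q z0 + ‖u0‖ * ‖x0‖| with ha
        have hn := norm_nonneg (z0 - x0)
        have hu := norm_nonneg u0
        have hy' : ‖z0 - x0‖ + 2 * ‖u0‖ + 2 * a + 2 < ‖y - x0‖ := hy
        have hd : 2 * ‖u0‖ + 2 * a + 2 ≤ ‖y - x0‖ := by linarith
        have hd2 : (2 * ‖u0‖ + 2 * a + 2) * ‖y - x0‖ ≤ ‖y - x0‖ * ‖y - x0‖ :=
          mul_le_mul_of_nonneg_right hd (norm_nonneg _)
        have hd3 : 2 * a ≤ 2 * a * ‖y - x0‖ := by nlinarith
        show r0 + q z0 ≤ 1 / 2 * ‖y - x0‖ ^ 2 - inner ℝ u0 y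
        nlinarith [norm_nonneg (y - x0)]
      linarith
  -- the subgradient at the minimum
  have hw : u0 - (m - x0) ∈ subdiff f m := by
    intro y
    rcases eq_or_ne (f y) ⊤ with htop | htop
    · rw [htop]; exact le_top
    obtain ⟨t, ht⟩ := exists_real hf htop
    have hkey : ∀ a : ℝ, 0 < a → a < 1 →
        s + inner ℝ (u0 - (m - x0)) (y - m) - t ≤ a * (1 / 2 * ‖y - m‖ ^ 2) := by
      intro a ha ha1
      have h1 := hf.convex m y (1 - a) a (by linarith) ha (by ring)
      rw [hs, ht] at h1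
      have h2 : f ((1 - a) • m + a • y) ≤ (((1 - a) * s + a * t : ℝ) : EReal) := by
        push_cast
        exact_mod_cast h1
      have h3 := hglob _ _ h2
      have h4 : (1 - a) • m + a • y = m + a • (y - m) := by
        rw [sub_smul, one_smul, smul_sub]; abel
      rw [h4] at h3
      have h5 : q (m + a • (y - m)) = q m + a * inner ℝ (m - x0) (y - m)
          + a ^ 2 * (1 / 2 * ‖y - m‖ ^ 2) - a * inner ℝ u0 (y - m) := by
        show 1 / 2 * ‖m + a • (y - m) - x0‖ ^ 2 - inner ℝ u0 (m + a • (y - m)) = _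
        have h6 : m + a • (y - m) - x0 = (m - x0) + a • (y - m) := by abel
        rw [h6, norm_add_sq_real, norm_smul, inner_smul_right, inner_add_right, inner_smul_right]
        show _ = (1 / 2 * ‖m - x0‖ ^ 2 - inner ℝ u0 m) + _ + _ - _
        rw [Real.norm_eq_abs, mul_pow, sq_abs]
        ring
      rw [h5] at h3
      have h7 : a * (s + inner ℝ (u0 - (m - x0)) (y - m) - t) ≤
          a * (a * (1 / 2 * ‖y - m‖ ^ 2)) := by
        rw [inner_sub_left]
        nlinarith
      exact le_of_mul_le_mul_left h7 ha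
    have hlim : s + inner ℝ (u0 - (m - x0)) (y - m) - t ≤ 0 := by
      by_contra hcon
      push Not at hcon
      set c := s + inner ℝ (u0 - (m - x0)) (y - m) - t with hc
      set d := 1 / 2 * ‖y - m‖ ^ 2 with hd
      have hd0 : 0 ≤ d := by positivity
      have h1 := hkey (c / (2 * (c + d + 1))) (by positivity) (by
        rw [div_lt_one (by positivity)]; linarith)
      have h2 : c / (2 * (c + d + 1)) * d < c := by
        rw [div_mul_eq_mul_div, div_lt_iff₀ (by positivity)]
        nlinarith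
      linarith
    rw [hs, ht]
    have : s + inner ℝ (u0 - (m - x0)) (y - m) ≤ t := by linarith
    exact_mod_cast this
  have h1 := hB x0 m u0 (u0 - (m - x0)) hu0 (hfB m hw)
  have h2 : u0 - (u0 - (m - x0)) = -(x0 - m) := by abel
  rw [h2, inner_neg_left, real_inner_self_eq_norm_sq] at h1
  have h3 : ‖x0 - m‖ = 0 := by nlinarith [norm_nonneg (x0 - m)]
  have h4 : x0 = m := sub_eq_zero.1 (norm_eq_zero.1 h3)
  rw [← h4] at hw
  simpa using hw

end Maximal

/-- convex hulls of compact sets are compact -/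
theorem hull_compact {n : ℕ} {S : Set (EuclideanSpace ℝ (Fin n))} (hS : IsCompact S) :
    IsCompact (convexHull ℝ S) := by
  let Km : ℕ → Set (EuclideanSpace ℝ (Fin n)) := fun m =>
    (fun p : (Fin m → ℝ) × (Fin m → EuclideanSpace ℝ (Fin n)) => ∑ i, p.1 i • p.2 i) ''
      (stdSimplex ℝ (Fin m) ×ˢ (Set.univ.pi fun _ => S))
  have hK : ∀ m, IsCompact (Km m) := by
    intro m
    refine ((isCompact_stdSimplex ℝ (Fin m)).prod (isCompact_univ_pi fun _ => hS)).image ?_
    exact continuous_finsetSum _ fun i _ =>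
      ((continuous_apply i).comp continuous_fst).smul ((continuous_apply i).comp continuous_snd)
  have hU : convexHull ℝ S = ⋃ m ∈ Finset.range (n + 2), Km m := by
    apply Set.Subset.antisymm
    · intro x hx
      obtain ⟨ι, _, z, w, hz, hai, hw, hw1, hx'⟩ := eq_pos_convex_span_of_mem_convexHull hx
      have hc := hai.card_le_finrank_succ
      have hc' : Fintype.card ι ≤ n + 1 := by
        refine hc.trans ?_
        have := Submodule.finrank_le (vectorSpan ℝ (Set.range z))
        have h2 : Module.finrank ℝ (EuclideanSpace ℝ (Fin n)) = n := by simp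
        omega
      simp only [Set.mem_iUnion]
      refine ⟨Fintype.card ι, by simp; omega, ?_⟩
      let e := (Fintype.equivFin ι).symm
      refine ⟨(fun i => w (e i), fun i => z (e i)), ⟨⟨fun i => (hw _).le, ?_⟩, ?_⟩, ?_⟩
      · show ∑ i, w (e i) = 1
        rw [← hw1]
        exact Equiv.sum_comp e w
      · intro i _
        exact hz ⟨_, rfl⟩
      · show ∑ i, w (e i) • z (e i) = x
        rw [← hx']
        exact Equiv.sum_comp e fun i => w i • z i
    · intro x hx
      simp only [Set.mem_iUnion] at hx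
      obtain ⟨m, -, ⟨w, z⟩, ⟨⟨h0, h1⟩, hz⟩, rfl⟩ := hx
      exact (convex_convexHull ℝ S).sum_mem (fun i _ => h0 i) h1
        fun i _ => subset_convexHull ℝ S (hz i (Set.mem_univ i))
  rw [hU]
  exact (Finset.range (n + 2)).isCompact_biUnion fun m _ => hK m

/-- a nonempty convex `F_σ` set is an increasing union of nonempty compact convex sets -/
theorem exists_good {n : ℕ} {C : Set (EuclideanSpace ℝ (Fin n))} (hne : C.Nonempty)
    (hC : Convex ℝ C) (hF : IsFSigma C) :
    ∃ F : ℕ → Set (EuclideanSpace ℝ (Fin n)), Good F ∧ ⋃ k, F k = C := by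
  obtain ⟨E, hE, hEC⟩ := hF
  obtain ⟨x0, hx0⟩ := hne
  let K : ℕ → Set (EuclideanSpace ℝ (Fin n)) := fun k =>
    insert x0 (⋃ j ∈ Finset.range k, E j ∩ closedBall 0 k)
  have hKc : ∀ k, IsCompact (K k) := fun k => by
    refine IsCompact.insert ?_ x0
    refine (Finset.range k).isCompact_biUnion fun j _ => ?_
    exact (isCompact_closedBall _ _).inter_left (hE j)
  have hKC : ∀ k, K k ⊆ C := fun k => by
    rintro x (rfl | hx)
    · exact hx0
    · simp only [mem_iUnion] at hx
      obtain ⟨j, -, hj, -⟩ := hx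
      rw [← hEC]
      exact mem_iUnion.2 ⟨j, hj⟩
  have hKm : Monotone K := by
    intro a b hab
    refine insert_subset_insert ?_
    intro x hx
    simp only [mem_iUnion, Finset.mem_range] at hx ⊢
    obtain ⟨j, hj, hxj, hxb⟩ := hx
    exact ⟨j, by omega, hxj, closedBall_subset_closedBall (by exact_mod_cast hab) hxb⟩
  refine ⟨fun k => convexHull ℝ (K k), ⟨fun k => (hull_compact (hKc k)).isClosed, fun k => ?_,
    fun k => convex_convexHull ℝ _, ?_⟩, ?_⟩
  · exact ⟨x0, subset_convexHull ℝ _ (mem_insert _ _)⟩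
  · intro a b hab
    exact convexHull_mono (hKm hab)
  · apply Subset.antisymm
    · refine iUnion_subset fun k => ?_
      exact convexHull_min (hKC k) hC
    · intro x hx
      rw [← hEC] at hx
      obtain ⟨j, hj⟩ := mem_iUnion.1 hx
      obtain ⟨N, hN⟩ := exists_nat_ge ‖x‖
      refine mem_iUnion.2 ⟨max (j + 1) N, subset_convexHull ℝ _ (Or.inr ?_)⟩
      simp only [mem_iUnion, Finset.mem_range]
      refine ⟨j, by omega, hj, ?_⟩
      rw [mem_closedBall, dist_zero_right]
      refine hN.trans ?_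
      exact_mod_cast le_max_right _ _

theorem fSigma_of_sigmaCompact {n : ℕ} {C : Set (EuclideanSpace ℝ (Fin n))}
    (h : IsSigmaCompact C) : IsFSigma C := by
  obtain ⟨K, hK, hKC⟩ := h
  exact ⟨K, fun k => (hK k).isClosed, hKC⟩

/-- **Domains and ranges of maximally monotone operators.** For every `n` and every nonempty convex
set `C` of `ℝⁿ` the following are equivalent: (1) `C` is an `F_σ` set; (2) `C` is the domain of the
subdifferential of a proper lower semicontinuous convex function; (3) `C` is the range of such a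
subdifferential; (4) `C` is the domain of a maximally monotone operator; (5) `C` is the range of a
maximally monotone operator. If `n ≥ 2`, then some nonempty convex set of `ℝⁿ` is not an `F_σ`
set. -/
theorem result (n : ℕ) :
    (∀ C : Set (EuclideanSpace ℝ (Fin n)), C.Nonempty → Convex ℝ C →
      List.TFAE [IsFSigma C,
        ∃ f : EuclideanSpace ℝ (Fin n) → EReal, IsProperLscConvex f ∧ domOp (subdiff f) = C,
        ∃ f : EuclideanSpace ℝ (Fin n) → EReal, IsProperLscConvex f ∧ ranOp (subdiff f) = C,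
        ∃ A : EuclideanSpace ℝ (Fin n) → Set (EuclideanSpace ℝ (Fin n)),
          IsMaximallyMonotone A ∧ domOp A = C,
        ∃ A : EuclideanSpace ℝ (Fin n) → Set (EuclideanSpace ℝ (Fin n)),
          IsMaximallyMonotone A ∧ ranOp A = C]) ∧
    (2 ≤ n → ∃ C : Set (EuclideanSpace ℝ (Fin n)), C.Nonempty ∧ Convex ℝ C ∧ ¬ IsFSigma C) := by
  refine ⟨fun C hne hC => ?_, fun hn => ?_⟩
  · tfae_have 1 → 2 := by
      intro h
      obtain ⟨F, hF, rfl⟩ := exists_good hne hC h
      exact ⟨g F, g_properLscConvex hF, dom_g hF⟩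
    tfae_have 1 → 3 := by
      intro h
      obtain ⟨F, hF, rfl⟩ := exists_good hne hC h
      exact ⟨gs F, gs_properLscConvex hF, ran_gs hF⟩
    tfae_have 1 → 4 := by
      intro h
      obtain ⟨F, hF, rfl⟩ := exists_good hne hC h
      exact ⟨subdiff (g F), subdiff_maximal (g_properLscConvex hF) (g_nonneg F), dom_g hF⟩
    tfae_have 4 → 5 := by
      rintro ⟨A, hA, rfl⟩
      exact ⟨fun u => {x | u ∈ A x}, inv_maximal hA, rfl⟩
    tfae_have 2 → 1 := by
      rintro ⟨f, hf, rfl⟩
      exact fSigma_of_sigmaCompact (isSigmaCompact_dom_of_closed_graph (isClosed_graph_subdiff hf))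
    tfae_have 3 → 1 := by
      rintro ⟨f, hf, rfl⟩
      exact fSigma_of_sigmaCompact (isSigmaCompact_ran_of_closed_graph (isClosed_graph_subdiff hf))
    tfae_have 5 → 1 := by
      rintro ⟨A, hA, rfl⟩
      exact fSigma_of_sigmaCompact (isSigmaCompact_ran_of_closed_graph hA.isClosed_graph)
    tfae_finish
  · let C : Set (EuclideanSpace ℝ (Fin n)) :=
      {x | ‖x‖ < 1 ∨ (‖x‖ = 1 ∧ Irrational (x ⟨0, by omega⟩))}
    have hsub : C ⊆ closedBall 0 1 := by
      rintro x (h | ⟨h, -⟩)
      · simpa using h.le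
      · simpa using h.le
    have hball : ball (0 : EuclideanSpace ℝ (Fin n)) 1 ⊆ C := fun x hx => Or.inl (by simpa using hx)
    have hnot : ¬ IsSigmaCompact C := by
      refine not_sigmaCompact_of_sphere hn C fun x hx => ?_
      constructor
      · rintro (h | ⟨-, h⟩)
        · exact absurd hx h.ne
        · exact h
      · exact fun h => Or.inr ⟨hx, h⟩
    refine ⟨C, ⟨0, Or.inl (by simp)⟩, ?_, ?_⟩
    · rw [convex_iff_pairwise_pos]
      intro x hx y hy hxy a b ha hb hab
      apply hball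
      rw [← interior_closedBall (0 : EuclideanSpace ℝ (Fin n)) one_ne_zero]
      exact strictConvex_closedBall ℝ (0 : EuclideanSpace ℝ (Fin n)) 1 (hsub hx) (hsub hy) hxy ha hb
        hab
    · rintro ⟨F, hF, hFC⟩
      apply hnot
      rw [← hFC]
      refine isSigmaCompact_iUnion _ fun k => ?_
      exact isSigmaCompact_univ.of_isClosed_subset (hF k) (subset_univ _)

end Pool.Agent.Results.MP_597c46_an.SigmaCharacterization
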